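import Pool.Agent.S12.SidonAll

/-!
Sidon sets are finite unions of almost quasi-independent sets.
-/

set_option autoImplicit false

open Pool.Agent.Helper72.Sidon in
/-- For every real `C` and every `ε > 0` there is a `K` such that, for every compact abelian group `G`, every
set `Λ` of nontrivial characters of `G` which satisfies the Sidon inequality with the constant `C` is the union
of `K` sets `E i` such that every finite `B ⊆ E i` contains a quasi-independent set with at least
`(1 - ε) |B|` elements. -/
theorem Pool.Agent.Results.MP_5efb50_an.AlmostQuasiIndependent.result (C ε : ℝ) (hε : 0 < ε) :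
    ∃ K : ℕ, ∀ (G : Type*) [CommGroup G] [TopologicalSpace G] [IsTopologicalGroup G]
      [CompactSpace G] (Λ : Set (PontryaginDual G)),
      1 ∉ Λ → IsSidonWith C Λ →
        ∃ E : Fin K → Set (PontryaginDual G), Λ = ⋃ i, E i ∧
          ∀ (i : Fin K) (B : Finset (PontryaginDual G)), (B : Set (PontryaginDual G)) ⊆ E i →
            ∃ D : Finset (PontryaginDual G), D ⊆ B ∧ QuasiIndependent (D : Set (PontryaginDual G)) ∧
              (1 - ε) * (B.card : ℝ) ≤ D.card := by
  obtain ⟨K, hK⟩ := Pool.Agent.S12.sidon_union_one C ε hε
  exact ⟨K, fun G _ _ _ _ Λ h1 hS => hK G Λ h1 hS⟩
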