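import Pool.Agent.Helper77.SD.Main

/-!
Sidon sets of characters of bounded degree of a product of compact abelian groups are finite unions
of quasi-independent sets.
-/

open Pool.Agent.Helper72.Sidon in
/-- For all `C`, `r`, `s` there is a `K` such that, for every family `G i` of compact abelian groups,
every set `Λ` of nontrivial characters of the product, each depending on at most `r` coordinates and
such that for every `i` there are at most `s` restrictions of members of `Λ` to the factor `G i`, and
which satisfies the Sidon inequality with constant `C`, is the union of `K` quasi-independent sets;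
moreover every member of one of these sets has a coordinate of its own. -/
theorem Pool.Agent.Results.MP_5efb50_an.BoundedDegree.result (C : ℝ) (r s : ℕ) :
    ∃ K : ℕ, ∀ (ι : Type*) [DecidableEq ι] (G : ι → Type*) [∀ i, CommGroup (G i)]
      [∀ i, TopologicalSpace (G i)] [∀ i, IsTopologicalGroup (G i)] [∀ i, CompactSpace (G i)]
      (Λ : Set (PontryaginDual (∀ i, G i))),
      1 ∉ Λ →
      (∀ γ ∈ Λ, ∃ S : Finset ι, S.card ≤ r ∧ ∀ x, (∀ i ∈ S, x i = 1) → γ x = 1) →
      (∀ i, Set.encard ((fun (γ : PontryaginDual (∀ i, G i)) (t : G i) =>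
        γ (Pi.mulSingle i t)) '' Λ) ≤ s) →
      IsSidonWith C Λ →
        ∃ E : Fin K → Set (PontryaginDual (∀ i, G i)),
          (∀ j, QuasiIndependent (E j)) ∧
          (∀ j, ∀ γ ∈ E j, ∃ i, (∃ t, γ (Pi.mulSingle i t) ≠ 1) ∧
            ∀ γ' ∈ E j, γ' ≠ γ → ∀ t, γ' (Pi.mulSingle i t) = 1) ∧
          Λ = ⋃ j, E j := by
  obtain ⟨K, hK⟩ := Pool.Agent.Helper77.SD.main C r s
  refine ⟨K, fun ι _ G _ _ _ _ Λ h1 hdeg hF hSid => ?_⟩
  obtain ⟨E, hE, hΛ⟩ := hK ι G Λ h1 hdeg hF hSid
  exact ⟨E, fun j => (hE j).quasiIndependent, hE, hΛ⟩
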