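import Pool.Agent.Helper72.Sidon.Analysis

/-!
Sidon sets of characters of bounded order are finite unions of quasi-independent sets.
-/

open Pool.Agent.Helper72.Sidon in
/-- For every `C` and `m ≥ 1` there is a `K` such that, for every compact abelian group `G`, every
set `Λ` of nontrivial characters of `G` with `γ ^ m = 1` for all `γ ∈ Λ` which satisfies the Sidon
inequality with constant `C` is the union of `K` quasi-independent sets. -/
theorem Pool.Agent.Results.MP_5efb50_an.BoundedOrder.result (C : ℝ) (m : ℕ) (hm : 0 < m) :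
    ∃ K : ℕ, ∀ (G : Type*) [CommGroup G] [TopologicalSpace G] [IsTopologicalGroup G]
      [CompactSpace G] (Λ : Set (PontryaginDual G)),
      1 ∉ Λ → (∀ γ ∈ Λ, γ ^ m = 1) → IsSidonWith C Λ →
        ∃ E : Fin K → Set (PontryaginDual G), (∀ i, QuasiIndependent (E i)) ∧ Λ = ⋃ i, E i := by
  obtain ⟨K, hK⟩ := sidon_main C m hm
  exact ⟨K, fun G _ _ _ _ Λ h1 hexp h => hK G Λ h1 hexp h⟩
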