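import Pool.Agent.RR.FinalSidonU

/-!
A Sidon set is, for all `m` and all `n` at most the tower of `2`s of height `m`, a union of
`2 ^ ((K m) ^ m)` sets all of whose subsets with at most `n` elements are quasi-independent.
-/

set_option autoImplicit false

open Pool.Agent.Helper72.Sidon in
/-- For every real `C` there is a `K` such that, for every compact abelian group `G`, every set `Λ` of
nontrivial characters of `G` which satisfies the Sidon inequality with the constant `C`, every `m ≥ 1`
and every `n` which is at most the tower of `2`s of height `m`: `Λ` is a union of `2 ^ ((K m) ^ m)` sets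
all of whose subsets with at most `n` elements are quasi-independent. -/
theorem Pool.Agent.Results.MP_5efb50_an.LogStar.result (C : ℝ) :
    ∃ K : ℕ, ∀ (G : Type*) [CommGroup G] [TopologicalSpace G] [IsTopologicalGroup G]
      [CompactSpace G] (Λ : Set (PontryaginDual G)),
      1 ∉ Λ → IsSidonWith C Λ → ∀ m n : ℕ, 1 ≤ m → n ≤ (fun j : ℕ => 2 ^ j)^[m] 1 →
        ∃ E : Fin (2 ^ ((K * m) ^ m)) → Set (PontryaginDual G), Λ = ⋃ i, E i ∧
          ∀ (i : Fin (2 ^ ((K * m) ^ m))) (B : Finset (PontryaginDual G)),
            (B : Set (PontryaginDual G)) ⊆ E i → B.card ≤ n →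
              QuasiIndependent (B : Set (PontryaginDual G)) := by
  obtain ⟨K, hK⟩ := Pool.Agent.RR.uniform_sidon C
  exact ⟨K, fun G _ _ _ _ Λ h1 hS => hK G Λ h1 hS⟩
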